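import Pool.Agent.H86.UN.Main

set_option autoImplicit false

/-!
(7) and (8): the contradiction.
-/

namespace ALoop

open Equiv Pool.Agent.H86.UN

/-- pure group theory: `F m = kom m r`, `U` generated by the `z · m z m⁻¹` -/
theorem comm_gen {M : Type*} [Group M] {B : Subgroup M} {r z : M}
    (h2 : ∀ m ∈ B, Commute (kom m r) z) :
    ∀ u ∈ Subgroup.closure {w : M | ∃ m ∈ B, w = z * (m * z * m⁻¹)},
      ∀ m ∈ B, Commute (kom m r) u := by
  have hK : ∀ m ∈ B, ∀ m' ∈ B, Commute (kom m r) (m' * z * m'⁻¹) := by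
    intro m hm m' hm'
    have e1 : m'⁻¹ * kom m r * m' = kom (m'⁻¹ * m) r * (kom m'⁻¹ r)⁻¹ := by
      unfold kom; group
    have e2 : Commute (m'⁻¹ * kom m r * m') z := by
      rw [e1]
      exact (h2 _ (B.mul_mem (B.inv_mem hm') hm)).mul_left (h2 _ (B.inv_mem hm')).inv_left
    show kom m r * (m' * z * m'⁻¹) = m' * z * m'⁻¹ * kom m r
    calc kom m r * (m' * z * m'⁻¹) = m' * ((m'⁻¹ * kom m r * m') * z) * m'⁻¹ := by group
      _ = m' * (z * (m'⁻¹ * kom m r * m')) * m'⁻¹ := by rw [e2.eq]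
      _ = m' * z * m'⁻¹ * kom m r := by group
  intro u hu m hm
  induction hu using Subgroup.closure_induction with
  | mem w hw =>
    obtain ⟨m', hm', rfl⟩ := hw
    exact (h2 m hm).mul_right (hK m hm m' hm')
  | one => exact Commute.one_right _
  | mul a b _ _ ha hb => exact ha.mul_right hb
  | inv a _ ha => exact ha.inv_right

theorem comm_kom {M : Type*} [Group M] {B : Subgroup M} {r : M}
    (h1 : ∀ m ∈ B, Commute (kom m r) r) {m m' : M} (hm : m ∈ B) (hm' : m' ∈ B) :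
    Commute (kom m r) (kom m' r) := by
  have e1 : Commute (m'⁻¹ * (m * r * m⁻¹) * m') r := by
    have e2 : m'⁻¹ * (m * r * m⁻¹) * m' = kom (m'⁻¹ * m) r * r := by unfold kom; group
    rw [e2]
    exact (h1 _ (B.mul_mem (B.inv_mem hm') hm)).mul_left (Commute.refl r)
  have e3 : Commute (m * r * m⁻¹) (m' * r * m'⁻¹) := by
    show m * r * m⁻¹ * (m' * r * m'⁻¹) = m' * r * m'⁻¹ * (m * r * m⁻¹)
    calc m * r * m⁻¹ * (m' * r * m'⁻¹) = m' * ((m'⁻¹ * (m * r * m⁻¹) * m') * r) * m'⁻¹ := by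
          group
      _ = m' * (r * (m'⁻¹ * (m * r * m⁻¹) * m')) * m'⁻¹ := by rw [e1.eq]
      _ = _ := by group
  have e4 : Commute (kom m r) (m' * r * m'⁻¹) := by
    have e5 : Commute r (m' * r * m'⁻¹) := by
      have e6 : m' * r * m'⁻¹ = kom m' r * r := (kom_mul m' r).symm
      rw [e6]
      exact (h1 m' hm').symm.mul_right (Commute.refl r)
    have e7 : kom m r = m * r * m⁻¹ * r⁻¹ := rfl
    rw [e7]
    exact e3.mul_left e5.inv_left
  have e8 : kom m' r = m' * r * m'⁻¹ * r⁻¹ := rfl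
  rw [e8]
  exact e4.mul_right (h1 m hm).inv_right

/-- the commutators of `U` commute with `r` -/
theorem comm_U {M : Type*} [Group M] {B : Subgroup M} {r z : M}
    (hz : ∀ m ∈ B, z * (m * z * m⁻¹) ∈ B)
    (h1 : ∀ m ∈ B, Commute (kom m r) r) (h2 : ∀ m ∈ B, Commute (kom m r) z) :
    ∀ u ∈ Subgroup.closure {w : M | ∃ m ∈ B, w = z * (m * z * m⁻¹)},
      ∀ v ∈ Subgroup.closure {w : M | ∃ m ∈ B, w = z * (m * z * m⁻¹)},
      u * v * u⁻¹ * v⁻¹ ∈ Subgroup.centralizer {r} := by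
  have hUB : Subgroup.closure {w : M | ∃ m ∈ B, w = z * (m * z * m⁻¹)} ≤ B := by
    rw [Subgroup.closure_le]
    rintro _ ⟨m, hm, rfl⟩
    exact hz m hm
  have key : ∀ u ∈ Subgroup.closure {w : M | ∃ m ∈ B, w = z * (m * z * m⁻¹)},
      ∀ v ∈ Subgroup.closure {w : M | ∃ m ∈ B, w = z * (m * z * m⁻¹)},
      (u * v) * r * (u * v)⁻¹ = kom v r * kom u r * r := by
    intro u hu v hv
    have c1 := comm_gen h2 u hu v (hUB hv)
    calc (u * v) * r * (u * v)⁻¹ = u * (v * r * v⁻¹) * u⁻¹ := by group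
      _ = u * (kom v r * r) * u⁻¹ := by rw [kom_mul]
      _ = (u * kom v r) * r * u⁻¹ := by group
      _ = (kom v r * u) * r * u⁻¹ := by rw [c1.eq]
      _ = kom v r * (u * r * u⁻¹) := by group
      _ = kom v r * kom u r * r := by rw [← kom_mul u r]; group
  intro u hu v hv
  have k1 := key _ (Subgroup.inv_mem _ hu) _ (Subgroup.inv_mem _ hv)
  have k2 := key _ (Subgroup.inv_mem _ hv) _ (Subgroup.inv_mem _ hu)
  have k3 := (comm_kom h1 (B.inv_mem (hUB hu)) (B.inv_mem (hUB hv))).eq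
  have k4 : (u⁻¹ * v⁻¹) * r * (u⁻¹ * v⁻¹)⁻¹ = (v⁻¹ * u⁻¹) * r * (v⁻¹ * u⁻¹)⁻¹ := by
    rw [k1, k2, k3]
  rw [Subgroup.mem_centralizer_singleton_iff]
  calc u * v * u⁻¹ * v⁻¹ * r = (u * v) * ((u⁻¹ * v⁻¹) * r * (u⁻¹ * v⁻¹)⁻¹) * (u⁻¹ * v⁻¹) := by
        group
    _ = (u * v) * ((v⁻¹ * u⁻¹) * r * (v⁻¹ * u⁻¹)⁻¹) * (u⁻¹ * v⁻¹) := by rw [k4]
    _ = r * (u * v * u⁻¹ * v⁻¹) := by group

variable {Q : Type*} {G : Subgroup (Perm Q)} {L : Q → Perm Q} {J : Perm Q} {e : Q}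

namespace AL

/-- the case of a minimal `B` -/
theorem min_case [Finite Q] (h : AL G L J e) (hcardQ : 2 ∣ Nat.card Q)
    {A B : Subgroup (Perm Q)} (hA : A ≤ Inn G e)
    (hA0 : A ≠ ⊥) (hAn : ∀ g ∈ Inn G e, ∀ a ∈ A, g * a * g⁻¹ ∈ A) (hB : B ≤ Inn G e)
    (hB0 : B ≠ ⊥) (hBn : ∀ g ∈ Inn G e, ∀ a ∈ B, g * a * g⁻¹ ∈ B)
    (hmin : ∀ C : Subgroup (Perm Q), C ≤ B → (∀ g ∈ Inn G e, ∀ c ∈ C, g * c * g⁻¹ ∈ C) →
      C = ⊥ ∨ C = B)
    (hcom : ∀ a ∈ A, ∀ b ∈ B, a * b = b * a) : False := by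
  obtain ⟨S, hS⟩ := exists_syl (Inn G e)
  obtain ⟨x, hxe, hJx, -⟩ := h.exists_x2 hcardQ hS
  have hwE : D L J x * J ∈ EE L J e := ⟨x, hJx, hxe, rfl⟩
  have hzz := h.Z_sq (h.zx_mem hJx hxe)
  have hcomAB : ∀ a ∈ B, ∀ b ∈ A, a * b = b * a := fun a ha b hb => (hcom b hb a ha).symm
  -- `b`
  obtain ⟨a, haA, ha⟩ : ∃ a ∈ A, a x ≠ x := by
    by_contra hcon
    push Not at hcon
    exact hxe (h.fix_normal hA hA0 hAn hcon)
  obtain ⟨hbA, hbo, hbi⟩ := h.odd_prod hB hB0 hBn hA hAn hcomAB hwE haA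
  set z := D L J x * J with hz
  have hb1 : z * (a * z * a⁻¹) ≠ 1 := by
    intro h1
    apply ha
    rw [← h.EE_cent (hA haA), ← hz]
    have h2 : a * z * a⁻¹ = z := by
      calc a * z * a⁻¹ = (z * z) * (a * z * a⁻¹) := by rw [hzz, one_mul]
        _ = z * (z * (a * z * a⁻¹)) := by group
        _ = z := by rw [h1, mul_one]
    calc a * z = (a * z * a⁻¹) * a := by group
      _ = z * a := by rw [h2]
  set b := z * (a * z * a⁻¹) with hb
  have h7 := fun m (hm : m ∈ B) => h.com_seven hA hA0 hAn hB hBn hcom hJx hxe hbA hbo hbi hm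
  obtain ⟨r2, -, -⟩ := h.key' hJx (hA hbA) hbo hbi
  set r := (L x)⁻¹ * b * L x with hr
  have hzB : ∀ m ∈ B, z * (m * z * m⁻¹) ∈ B := fun m hm =>
    (h.odd_prod hA hA0 hAn hB hBn hcom hwE hm).1
  have hUB : Subgroup.closure {w : Perm Q | ∃ m ∈ B, w = z * (m * z * m⁻¹)} ≤ B := by
    rw [Subgroup.closure_le]
    rintro _ ⟨m, hm, rfl⟩
    exact hzB m hm
  have hzi : z⁻¹ = z := inv_eq_of_mul_eq_one_left hzz
  have hUn : ∀ c ∈ B, ∀ u ∈ Subgroup.closure {w : Perm Q | ∃ m ∈ B, w = z * (m * z * m⁻¹)},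
      c * u * c⁻¹ ∈ Subgroup.closure {w : Perm Q | ∃ m ∈ B, w = z * (m * z * m⁻¹)} := by
    intro c hc u hu
    induction hu using Subgroup.closure_induction with
    | mem w hw =>
      obtain ⟨m, hm, rfl⟩ := hw
      have e1 : c * (z * (m * z * m⁻¹)) * c⁻¹ =
          (z * (c * z * c⁻¹))⁻¹ * (z * ((c * m) * z * (c * m)⁻¹)) := by
        have e2 : (z * (c * z * c⁻¹))⁻¹ = c * z⁻¹ * c⁻¹ * z⁻¹ := by group
        rw [e2, hzi]
        calc c * (z * (m * z * m⁻¹)) * c⁻¹ = c * z * c⁻¹ * 1 * ((c * m) * z * (c * m)⁻¹) := by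
              group
          _ = c * z * c⁻¹ * (z * z) * ((c * m) * z * (c * m)⁻¹) := by rw [hzz]
          _ = _ := by group
      rw [e1]
      exact Subgroup.mul_mem _ (Subgroup.inv_mem _ (Subgroup.subset_closure ⟨c, hc, rfl⟩))
        (Subgroup.subset_closure ⟨c * m, B.mul_mem hc hm, rfl⟩)
    | one => simp
    | mul a b _ _ ha hb =>
      have e1 : c * (a * b) * c⁻¹ = (c * a * c⁻¹) * (c * b * c⁻¹) := by group
      rw [e1]
      exact Subgroup.mul_mem _ ha hb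
    | inv a _ ha =>
      have e1 : c * a⁻¹ * c⁻¹ = (c * a * c⁻¹)⁻¹ := by group
      rw [e1]
      exact Subgroup.inv_mem _ ha
  -- `B` is not commutative
  have hab : ¬ ∀ a ∈ B, ∀ b ∈ B, a * b = b * a := by
    intro hcon
    exact hB0 (abelian_bot (Inn G e)
      (fun p hp R hR hRp hc hn => h.no_abelian_p hcardQ hp hR hRp hc hn) B hB hcon hBn)
  have hUr := perfect_of_minimal hB hBn hmin hab hUB hUn
    (comm_U hzB (fun m hm => (h7 m hm).1.1) (fun m hm => (h7 m hm).1.2))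
  -- `B` commutes with `r`
  have hBr : ∀ m ∈ B, m * r = r * m := by
    intro m hm
    obtain ⟨-, k, c, hmc, hcr⟩ := h7 m hm
    have h1 : z * (m * z * m⁻¹) ∈ Subgroup.centralizer {r} :=
      hUr (Subgroup.subset_closure ⟨m, hm, rfl⟩)
    rw [Subgroup.mem_centralizer_singleton_iff] at h1
    have h2 : Commute (z * (m * z * m⁻¹)) r := h1
    have h3 : Commute m r := by
      rw [hmc]
      exact (h2.pow_left k).mul_left hcr
    exact h3.eq
  have hrG : r ∈ G := G.mul_mem (G.mul_mem (G.inv_mem (h.memL x)) (hA hbA).1) (h.memL x)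
  have hre : r e = e := by
    apply h.norm_fix (S := B) (fun s hs => (hB hs).2)
      (fun g hg hge s hs => hBn g ⟨hg, hge⟩ s hs) hB0 hrG
    intro s
    constructor
    · intro hs
      rw [← hBr s hs, mul_inv_cancel_right]
      exact hs
    · intro hs
      have h2 := hBr _ hs
      have h3 : s = r * s * r⁻¹ := by
        calc s = r⁻¹ * (r * s * r⁻¹ * r) := by group
          _ = r⁻¹ * (r * (r * s * r⁻¹)) := by rw [h2]
          _ = r * s * r⁻¹ := by group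
      rw [h3]; exact hs
  -- `J` inverts and centralises `r`
  have hrJ := h.comJ r hrG hre
  have hri : r = r⁻¹ := by
    rw [← r2]
    calc r = r * (J * J) := by rw [h.JJ1, mul_one]
      _ = J * r * J := by rw [← mul_assoc, hrJ]
  have hrn : r ^ orderOf b = 1 := by
    have h2 := conj_pow (i := orderOf b) (a := (L x)⁻¹) (b := b)
    rw [inv_inv] at h2
    rw [hr, h2, pow_orderOf_eq_one, mul_one, inv_mul_cancel]
  have hr1 := eq_one_of_inv hbo hrn hri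
  apply hb1
  calc b = L x * r * (L x)⁻¹ := by rw [hr]; group
    _ = 1 := by rw [hr1]; group

/-- **Two commuting normal subgroups of the inner mapping group: one is trivial.** -/
theorem commuting_normal [Finite Q] (h : AL G L J e) (hcardQ : 2 ∣ Nat.card Q)
    {A B : Subgroup (Perm Q)} (hA : A ≤ Inn G e)
    (hAn : ∀ g ∈ Inn G e, ∀ a ∈ A, g * a * g⁻¹ ∈ A) (hB : B ≤ Inn G e)
    (hBn : ∀ g ∈ Inn G e, ∀ a ∈ B, g * a * g⁻¹ ∈ B)
    (hcom : ∀ a ∈ A, ∀ b ∈ B, a * b = b * a) : A = ⊥ ∨ B = ⊥ := by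
  by_contra hcon
  push Not at hcon
  obtain ⟨B₁, hB₁, hB₁0, hB₁n, hmin⟩ := exists_minimal hcon.2 hBn
  exact h.min_case hcardQ hA hcon.1 hAn (hB₁.trans hB) hB₁0 hB₁n hmin
    fun a ha b hb => hcom a ha b (hB₁ hb)

/-- the same inside the inner mapping group -/
theorem commuting_normal' [Finite Q] (h : AL G L J e) (hcardQ : 2 ∣ Nat.card Q)
    (A B : Subgroup (Inn G e)) (hA : A.Normal) (hB : B.Normal)
    (hcom : ∀ a ∈ A, ∀ b ∈ B, a * b = b * a) : A = ⊥ ∨ B = ⊥ := by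
  rw [← Subgroup.map_eq_bot_iff_of_injective A (Inn G e).subtype_injective,
    ← Subgroup.map_eq_bot_iff_of_injective B (Inn G e).subtype_injective]
  apply h.commuting_normal hcardQ (Subgroup.map_subtype_le A) _ (Subgroup.map_subtype_le B)
  · rintro g hg _ ⟨a, ha, rfl⟩
    exact ⟨⟨g, hg⟩ * a * (⟨g, hg⟩)⁻¹, hB.conj_mem a ha ⟨g, hg⟩, rfl⟩
  · rintro _ ⟨a, ha, rfl⟩ _ ⟨b, hb, rfl⟩
    exact congrArg Subtype.val (hcom a ha b hb)
  · rintro g hg _ ⟨a, ha, rfl⟩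
    exact ⟨⟨g, hg⟩ * a * (⟨g, hg⟩)⁻¹, hA.conj_mem a ha ⟨g, hg⟩, rfl⟩

/-- `J` is not in `G` -/
theorem J_not_G [Finite Q] (h : AL G L J e) (hcardQ : 2 ∣ Nat.card Q) : J ∉ G := by
  intro hJ
  have hJe : J ∈ Inn G e := ⟨hJ, h.Je⟩
  have h1 : Subgroup.zpowers J = ⊥ := by
    refine abelian_bot (Inn G e)
      (fun p hp R hR hRp hc hn => h.no_abelian_p hcardQ hp hR hRp hc hn) _ ?_ ?_ ?_
    · rw [Subgroup.zpowers_le]; exact hJe
    · rintro _ ⟨i, rfl⟩ _ ⟨j, rfl⟩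
      exact ((Commute.refl J).zpow_zpow i j).eq
    · rintro g hg _ ⟨i, rfl⟩
      have h2 : Commute g J := h.comJ g hg.1 hg.2
      have h3 := (h2.zpow_right i).eq
      refine ⟨i, ?_⟩
      show J ^ i = g * J ^ i * g⁻¹
      rw [h3]; group
  rw [Subgroup.zpowers_eq_bot] at h1
  exact h.Jne h1

end AL

end ALoop
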