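import Mathlib

set_option autoImplicit false

/-!
Elementary facts: the reflections of a dihedral group, and a commutator identity.
-/

namespace Pool.Agent.H86.UN

theorem refl_mem {M : Type*} [Group M] {E : Set M} {z u : M} (hz : z * z = 1)
    (hzu : z * u * z = u⁻¹) (hE : ∀ w ∈ E, u⁻¹ * w * u ∈ E) (h0 : z ∈ E) (h1 : z * u ∈ E)
    (j : ℕ) : z * u ^ j ∈ E := by
  have key : ∀ j : ℕ, z * u ^ j ∈ E ∧ z * u ^ (j + 1) ∈ E := by
    intro j
    induction j with
    | zero => exact ⟨by simpa using h0, by simpa using h1⟩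
    | succ j ih =>
      refine ⟨ih.2, ?_⟩
      have h2 := hE _ ih.1
      have h3 : u⁻¹ * (z * u ^ j) * u = z * u ^ (j + 1 + 1) := by
        rw [← hzu]
        calc z * u * z * (z * u ^ j) * u = z * u * (z * z) * u ^ j * u := by group
          _ = z * (u * u ^ j) * u := by rw [hz]; group
          _ = z * u ^ (j + 1 + 1) := by rw [pow_succ u (j + 1), pow_succ' u j]; group
      rw [h3] at h2
      exact h2
  exact (key j).1

/-- the commutator `m r m⁻¹ r⁻¹` -/
def kom {M : Type*} [Group M] (m r : M) : M := m * r * m⁻¹ * r⁻¹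

theorem kom_mul {M : Type*} [Group M] (m r : M) : kom m r * r = m * r * m⁻¹ := by
  unfold kom; group

theorem brk {M : Type*} [Group M] {b m r s : M} (h1 : b * m = m * b) (h2 : r * s = s * r)
    (h3 : b * r = r * b) (h4 : m * s = s * m) (h5 : b * m * (r * s) = r * s * (b * m)) :
    kom m r = kom s b ∧ Commute (kom m r) b ∧ Commute (kom m r) m ∧ Commute (kom m r) r ∧
      Commute (kom m r) s := by
  have cbm : Commute b m := h1
  have crs : Commute r s := h2
  have cbr : Commute b r := h3
  have cms : Commute m s := h4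
  have k1 : Commute (kom m r) b :=
    ((cbm.symm.mul_left cbr.symm).mul_left cbm.symm.inv_left).mul_left cbr.symm.inv_left
  have k2 : Commute (kom m r) s :=
    ((cms.mul_left crs).mul_left cms.inv_left).mul_left crs.inv_left
  have e1 : kom m r = kom s b := by
    have e2 : kom m r * r * b * s * m = r * kom s b * b * s * m := by
      calc kom m r * r * b * s * m = m * r * m⁻¹ * (b * (s * m)) := by rw [kom_mul]; group
        _ = m * r * m⁻¹ * (b * (m * s)) := by rw [h4]
        _ = m * r * m⁻¹ * (b * m) * s := by group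
        _ = m * r * m⁻¹ * (m * b) * s := by rw [h1]
        _ = m * (r * b) * s := by group
        _ = m * (b * r) * s := by rw [h3]
        _ = (m * b) * (r * s) := by group
        _ = b * m * (r * s) := by rw [h1]
        _ = r * s * (b * m) := h5
        _ = r * kom s b * b * s * m := by unfold kom; group
    have e3 : kom m r * r = r * kom s b := mul_right_cancel (mul_right_cancel (mul_right_cancel e2))
    have e4 : Commute (kom s b) r :=
      ((crs.symm.mul_left cbr).mul_left crs.symm.inv_left).mul_left cbr.inv_left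
    rw [← e4.eq] at e3
    exact mul_right_cancel e3
  have k3 : Commute (kom m r) m := by
    rw [e1]
    exact ((cms.symm.mul_left cbm).mul_left cms.symm.inv_left).mul_left cbm.inv_left
  have k4 : Commute (kom m r) r := by
    rw [e1]
    exact ((crs.symm.mul_left cbr).mul_left crs.symm.inv_left).mul_left cbr.inv_left
  exact ⟨e1, k1, k3, k4, k2⟩

/-- an involution which inverts `m` and `r` centralises their central commutator -/
theorem kom_z {M : Type*} [Group M] {m r z : M} (hz : z * z = 1) (hm : z * m * z = m⁻¹)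
    (hr : z * r * z = r⁻¹) (k3 : Commute (kom m r) m) (k4 : Commute (kom m r) r) :
    z * kom m r = kom m r * z := by
  have hzi : z⁻¹ = z := inv_eq_of_mul_eq_one_left hz
  have hm' : z * m⁻¹ * z = m := by
    calc z * m⁻¹ * z = (z⁻¹ * m * z⁻¹)⁻¹ := by group
      _ = m := by rw [hzi, hm, inv_inv]
  have hr' : z * r⁻¹ * z = r := by
    calc z * r⁻¹ * z = (z⁻¹ * r * z⁻¹)⁻¹ := by group
      _ = r := by rw [hzi, hr, inv_inv]
  have e1 : z * kom m r * z = m⁻¹ * r⁻¹ * m * r := by
    calc z * kom m r * z = z * m * (z * z) * r * (z * z) * m⁻¹ * (z * z) * r⁻¹ * z := by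
          rw [hz]; unfold kom; group
      _ = (z * m * z) * (z * r * z) * (z * m⁻¹ * z) * (z * r⁻¹ * z) := by group
      _ = m⁻¹ * r⁻¹ * m * r := by rw [hm, hr, hm', hr']
  have e2 : m⁻¹ * r⁻¹ * m * r = kom m r := by
    have e3 : m * r = kom m r * (r * m) := by unfold kom; group
    calc m⁻¹ * r⁻¹ * m * r = m⁻¹ * r⁻¹ * (m * r) := by group
      _ = m⁻¹ * r⁻¹ * (kom m r * (r * m)) := by rw [← e3]
      _ = m⁻¹ * (r⁻¹ * kom m r) * (r * m) := by group
      _ = m⁻¹ * (kom m r * r⁻¹) * (r * m) := by rw [k4.inv_right.eq]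
      _ = (m⁻¹ * kom m r) * m := by group
      _ = kom m r * m⁻¹ * m := by rw [k3.inv_right.eq]
      _ = kom m r := by group
  calc z * kom m r = z * kom m r * (z * z) := by rw [hz, mul_one]
    _ = (z * kom m r * z) * z := by group
    _ = kom m r * z := by rw [e1, e2]

end Pool.Agent.H86.UN
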