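import Pool.Agent.H4.NS.Fin
import Pool.Agent.H86.UN.Grp

set_option autoImplicit false

/-!
The involutions `z_x = T_x` of the inner mapping group, and commuting normal subgroups.
-/

namespace ALoop

open Equiv Pool.Agent.H86.UN

variable {Q : Type*} {G : Subgroup (Perm Q)} {L : Q → Perm Q} {J : Perm Q} {e : Q}

/-- the elements `D x * J` for the involutions `x` -/
def EE (L : Q → Perm Q) (J : Perm Q) (e : Q) : Set (Perm Q) :=
  {w | ∃ x, J x = x ∧ x ≠ e ∧ w = D L J x * J}

namespace AL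

theorem EE_Inn (h : AL G L J e) {w : Perm Q} (hw : w ∈ EE L J e) : w ∈ Inn G e := by
  obtain ⟨x, hJx, hxe, rfl⟩ := hw
  exact ⟨h.Z_mem (h.zx_mem hJx hxe), h.zx_e hJx hxe⟩

theorem EE_sq (h : AL G L J e) {w : Perm Q} (hw : w ∈ EE L J e) : w * w = 1 := by
  obtain ⟨x, hJx, hxe, rfl⟩ := hw
  exact h.Z_sq (h.zx_mem hJx hxe)

theorem EE_conj (h : AL G L J e) {w g : Perm Q} (hw : w ∈ EE L J e) (hg : g ∈ Inn G e) :
    g * w * g⁻¹ ∈ EE L J e := by
  obtain ⟨x, hJx, hxe, rfl⟩ := hw
  have hc := h.comJ g hg.1 hg.2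
  refine ⟨g x, ?_, ?_, ?_⟩
  · rw [← Perm.mul_apply, ← hc, Perm.mul_apply, hJx]
  · intro h1
    apply hxe
    apply g.injective
    exact h1.trans (show g e = e from hg.2).symm
  · rw [← h.D_conj hg.1]
    calc g * (D L J x * J) * g⁻¹ = g * D L J x * (J * g⁻¹) := by group
      _ = g * D L J x * (g⁻¹ * J) := by
          have h2 : J * g⁻¹ = g⁻¹ * J := by
            calc J * g⁻¹ = g⁻¹ * (g * J) * g⁻¹ := by group
              _ = g⁻¹ * (J * g) * g⁻¹ := by rw [hc]
              _ = g⁻¹ * J := by group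
          rw [h2]
      _ = g * D L J x * g⁻¹ * J := by group

theorem EE_cent (h : AL G L J e) {x : Q} {g : Perm Q} (hg : g ∈ Inn G e) :
    g * (D L J x * J) = (D L J x * J) * g ↔ g x = x := by
  have hc := h.comJ g hg.1 hg.2
  rw [← h.D_cent hg.1]
  constructor
  · intro h1
    have h2 : g * D L J x * J = D L J x * g * J := by
      calc g * D L J x * J = g * (D L J x * J) := by group
        _ = (D L J x * J) * g := h1
        _ = D L J x * (J * g) := by group
        _ = D L J x * (g * J) := by rw [hc]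
        _ = D L J x * g * J := by group
    exact mul_right_cancel h2
  · intro h1
    calc g * (D L J x * J) = (g * D L J x) * J := by group
      _ = D L J x * (g * J) := by rw [h1]; group
      _ = D L J x * (J * g) := by rw [hc]
      _ = (D L J x * J) * g := by group

/-- two commuting elements -/
theorem EE_mul (h : AL G L J e) {w v : Perm Q} (hw : w ∈ EE L J e) (hv : v ∈ EE L J e)
    (hc : w * v = v * w) (hne : w ≠ v) : w * v ∈ EE L J e := by
  have hwI := h.EE_Inn hw
  have hvI := h.EE_Inn hv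
  have hww := h.EE_sq hw
  have hvv := h.EE_sq hv
  have hJJ := h.JJ1
  have hwJ := h.comJ w hwI.1 hwI.2
  have hvJ := h.comJ v hvI.1 hvI.2
  obtain ⟨x, hJx, hxe, hwx⟩ := hw
  obtain ⟨y, hJy, hye, hvy⟩ := hv
  have hvx : v x = x := by
    rw [← h.EE_cent hvI, ← hwx]
    exact hc.symm
  have hvL : v * L x = L x * v := h.comL hvI.1 hvI.2 hvx
  have hDx : D L J x = w * J := by rw [hwx, mul_assoc, hJJ, mul_one]
  have hDy : D L J y = v * J := by rw [hvy, mul_assoc, hJJ, mul_one]
  have hDq : D L J (L x y) = v * w * J := by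
    rw [← h.D_conj (h.memL x), hDy]
    calc L x * (v * J) * (L x)⁻¹ = (L x * v) * J * (L x)⁻¹ := by group
      _ = v * (L x * J * (L x)⁻¹) := by rw [← hvL]; group
      _ = v * D L J x := rfl
      _ = v * w * J := by rw [hDx]; group
  have hvwJ : v * w * J = J * (v * w) := by
    calc v * w * J = v * (w * J) := by group
      _ = (v * J) * w := by rw [hwJ]; group
      _ = J * (v * w) := by rw [hvJ]; group
  refine ⟨L x y, ?_, ?_, ?_⟩
  · apply h.D_inj
    rw [← h.D_J, hDq]
    calc J * (v * w * J) * J = J * (v * w) * (J * J) := by group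
      _ = v * w * J := by rw [hJJ, mul_one, hvwJ]
  · intro hq
    rw [hq, h.D_e] at hDq
    apply hne
    have h1 : v * w = 1 := by
      have h2 : 1 * J = v * w * J := by rw [one_mul]; exact hDq
      exact (mul_right_cancel h2).symm
    calc w = v * v * w := by rw [hvv, one_mul]
      _ = v * (v * w) := by group
      _ = v := by rw [h1, mul_one]
  · rw [hDq, hc]
    calc v * w = v * w * (J * J) := by rw [hJJ, mul_one]
      _ = v * w * J * J := by group

/-- a normal subgroup which commutes with a nontrivial one contains no `z_x` -/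
theorem EE_not_mem (h : AL G L J e) {A B : Subgroup (Perm Q)} (hA : A ≤ Inn G e) (hA0 : A ≠ ⊥)
    (hAn : ∀ g ∈ Inn G e, ∀ a ∈ A, g * a * g⁻¹ ∈ A)
    (hcom : ∀ a ∈ A, ∀ b ∈ B, a * b = b * a) {w : Perm Q} (hw : w ∈ EE L J e) : w ∉ B := by
  intro hwB
  obtain ⟨x, hJx, hxe, hwx⟩ := hw
  apply hxe
  apply h.fix_normal hA hA0 hAn
  intro a ha
  rw [← h.EE_cent (hA ha), ← hwx]
  exact hcom a ha w hwB

/-- the products `z · m z m⁻¹` have odd order -/
theorem odd_prod [Finite Q] (h : AL G L J e) {A B : Subgroup (Perm Q)} (hA : A ≤ Inn G e)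
    (hA0 : A ≠ ⊥) (hAn : ∀ g ∈ Inn G e, ∀ a ∈ A, g * a * g⁻¹ ∈ A) (hB : B ≤ Inn G e)
    (hBn : ∀ g ∈ Inn G e, ∀ a ∈ B, g * a * g⁻¹ ∈ B)
    (hcom : ∀ a ∈ A, ∀ b ∈ B, a * b = b * a) {w : Perm Q} (hw : w ∈ EE L J e) {m : Perm Q}
    (hm : m ∈ B) : w * (m * w * m⁻¹) ∈ B ∧ Odd (orderOf (w * (m * w * m⁻¹))) ∧
      w * (w * (m * w * m⁻¹)) * w = (w * (m * w * m⁻¹))⁻¹ := by
  have hwI := h.EE_Inn hw
  have hww := h.EE_sq hw
  have hwi : w⁻¹ = w := inv_eq_of_mul_eq_one_left hww
  have hmI := hB hm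
  set u := w * (m * w * m⁻¹) with hu
  have huB : u ∈ B := by
    have h1 := B.mul_mem (hBn w hwI m hm) (B.inv_mem hm)
    rw [hwi] at h1
    have h2 : w * m * w * m⁻¹ = u := by rw [hu]; group
    rwa [h2] at h1
  have hui : w * u * w = u⁻¹ := by
    have h1 : u⁻¹ = m * w⁻¹ * m⁻¹ * w⁻¹ := by rw [hu]; group
    rw [h1, hwi, hu]
    calc w * (w * (m * w * m⁻¹)) * w = (w * w) * (m * w * m⁻¹) * w := by group
      _ = m * w * m⁻¹ * w := by rw [hww, one_mul]
  refine ⟨huB, ?_, hui⟩
  by_contra hodd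
  rw [Nat.not_odd_iff_even] at hodd
  obtain ⟨k, hk⟩ := hodd
  have hpos := orderOf_pos u
  have hk0 : 0 < k := by omega
  have htt : u ^ k * u ^ k = 1 := by rw [← pow_add, ← hk, pow_orderOf_eq_one]
  have ht1 : u ^ k ≠ 1 := by
    intro h1
    have h2 := orderOf_dvd_of_pow_eq_one h1
    have h3 := Nat.le_of_dvd hk0 h2
    omega
  have huI := hB huB
  have hmem : w * u ^ k ∈ EE L J e := by
    apply refl_mem hww hui
    · intro v hv
      have h1 := h.EE_conj hv ((Inn G e).inv_mem huI)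
      rwa [inv_inv] at h1
    · exact hw
    · have h1 : w * u = m * w * m⁻¹ := by
        rw [hu, ← mul_assoc, hww, one_mul]
      rw [h1]
      exact h.EE_conj hw hmI
  have hwk : w * u ^ k * w = u ^ k := by
    have h1 : ∀ j : ℕ, w * u ^ j * w = (u ^ j)⁻¹ := by
      intro j
      induction j with
      | zero => simp [hww]
      | succ j ih =>
        calc w * u ^ (j + 1) * w = (w * u ^ j * w) * (w⁻¹ * w⁻¹ * (w * u * w)) := by
              rw [pow_succ]; group
          _ = (u ^ j)⁻¹ * u⁻¹ := by rw [ih, hwi, hww, hui, one_mul]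
          _ = (u ^ (j + 1))⁻¹ := by rw [pow_succ']; group
    rw [h1 k]
    exact inv_eq_of_mul_eq_one_left htt
  have hc : w * (w * u ^ k) = (w * u ^ k) * w := by
    rw [hwk, ← mul_assoc, hww, one_mul]
  have hne : w ≠ w * u ^ k := by
    intro h1
    apply ht1
    have h2 : w * 1 = w * u ^ k := by rw [mul_one]; exact h1
    exact (mul_left_cancel h2).symm
  have ht := h.EE_mul hw hmem hc hne
  rw [← mul_assoc, hww, one_mul] at ht
  exact h.EE_not_mem hA hA0 hAn hcom ht (B.pow_mem huB k)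

end AL

end ALoop
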