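import Mathlib

set_option autoImplicit false

/-!
Normal subgroups of a nonabelian minimal normal subgroup are perfect.
-/

namespace Pool.Agent.H86.UN

section

variable {M : Type*} [Group M]

/-- subgroups of `B` normalised by `B` -/
private def StrN (B C : Subgroup M) : Prop := C ≤ B ∧ ∀ b ∈ B, ∀ c ∈ C, b * c * b⁻¹ ∈ C

/-- minimal ones -/
private def StrM (B T : Subgroup M) : Prop :=
  StrN B T ∧ T ≠ ⊥ ∧ ∀ C : Subgroup M, StrN B C → C ≤ T → C = ⊥ ∨ C = T

private lemma Str_inf {B C D : Subgroup M} (hC : StrN B C) (hD : StrN B D) : StrN B (C ⊓ D) :=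
  ⟨inf_le_left.trans hC.1, fun b hb c hc => ⟨hC.2 b hb c hc.1, hD.2 b hb c hc.2⟩⟩

private lemma Str_comm {B C D : Subgroup M} (hC : StrN B C) (hD : StrN B D) (h : C ⊓ D = ⊥)
    {c d : M} (hc : c ∈ C) (hd : d ∈ D) : c * d = d * c := by
  have h1 : c * d * c⁻¹ * d⁻¹ ∈ C ⊓ D := by
    refine ⟨?_, ?_⟩
    · have h2 := C.mul_mem hc (hC.2 d (hD.1 hd) c⁻¹ (C.inv_mem hc))
      have h3 : c * d * c⁻¹ * d⁻¹ = c * (d * c⁻¹ * d⁻¹) := by group
      show c * d * c⁻¹ * d⁻¹ ∈ C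
      rw [h3]
      exact h2
    · exact D.mul_mem (hD.2 c (hC.1 hc) d hd) (D.inv_mem hd)
  rw [h, Subgroup.mem_bot, mul_inv_eq_one, mul_inv_eq_iff_eq_mul] at h1
  exact h1

private lemma Str_mapN {H B C : Subgroup M} (hBn : ∀ h ∈ H, ∀ b ∈ B, h * b * h⁻¹ ∈ B)
    {h : M} (hh : h ∈ H) (hC : StrN B C) : StrN B (C.map (MulAut.conj h).toMonoidHom) := by
  refine ⟨?_, ?_⟩
  · rintro x ⟨c, hc, rfl⟩
    exact hBn h hh c (hC.1 hc)
  · rintro b hb x ⟨c, hc, rfl⟩
    have h1 := hC.2 _ (hBn h⁻¹ (H.inv_mem hh) b hb) c hc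
    refine ⟨_, h1, ?_⟩
    show h * (h⁻¹ * b * h⁻¹⁻¹ * c * (h⁻¹ * b * h⁻¹⁻¹)⁻¹) * h⁻¹ = b * (h * c * h⁻¹) * b⁻¹
    group

private lemma Str_mapM {H B T : Subgroup M} (hBn : ∀ h ∈ H, ∀ b ∈ B, h * b * h⁻¹ ∈ B)
    {h : M} (hh : h ∈ H) (hT : StrM B T) : StrM B (T.map (MulAut.conj h).toMonoidHom) := by
  refine ⟨Str_mapN hBn hh hT.1, ?_, ?_⟩
  · intro h0
    refine hT.2.1 (le_bot_iff.1 fun t ht => ?_)
    have h1 : h * t * h⁻¹ ∈ T.map (MulAut.conj h).toMonoidHom := ⟨t, ht, rfl⟩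
    rw [h0, Subgroup.mem_bot] at h1
    rw [Subgroup.mem_bot]
    have h2 : t = h⁻¹ * (h * t * h⁻¹) * h := by group
    rw [h2, h1]
    group
  · intro C hC hCT
    have h1 := Str_mapN hBn (H.inv_mem hh) hC
    have h2 : C.map (MulAut.conj h⁻¹).toMonoidHom ≤ T := by
      rintro x ⟨c, hc, rfl⟩
      obtain ⟨t, ht, rfl⟩ := hCT hc
      show h⁻¹ * (h * t * h⁻¹) * h⁻¹⁻¹ ∈ T
      have h3 : h⁻¹ * (h * t * h⁻¹) * h⁻¹⁻¹ = t := by group
      rw [h3]
      exact ht
    rcases hT.2.2 _ h1 h2 with h3 | h3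
    · left
      refine le_bot_iff.1 fun c hc => ?_
      have h4 : h⁻¹ * c * h⁻¹⁻¹ ∈ C.map (MulAut.conj h⁻¹).toMonoidHom := ⟨c, hc, rfl⟩
      rw [h3, Subgroup.mem_bot] at h4
      rw [Subgroup.mem_bot]
      have h5 : c = h * (h⁻¹ * c * h⁻¹⁻¹) * h⁻¹ := by group
      rw [h5, h4]
      group
    · right
      refine le_antisymm hCT ?_
      rintro x ⟨t, ht, rfl⟩
      rw [← h3] at ht
      obtain ⟨c, hc, rfl⟩ := ht
      show h * (h⁻¹ * c * h⁻¹⁻¹) * h⁻¹ ∈ C
      have h5 : h * (h⁻¹ * c * h⁻¹⁻¹) * h⁻¹ = c := by group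
      rw [h5]
      exact hc

/-- the subgroup generated by the commutators -/
private def StrD (T : Subgroup M) : Subgroup M :=
  Subgroup.closure {x | ∃ t ∈ T, ∃ s ∈ T, t * s * t⁻¹ * s⁻¹ = x}

private lemma StrD_N {B T : Subgroup M} (hT : StrN B T) : StrN B (StrD T) ∧ StrD T ≤ T := by
  have h1 : StrD T ≤ T := by
    refine (Subgroup.closure_le T).2 ?_
    rintro x ⟨t, ht, s, hs, rfl⟩
    exact T.mul_mem (T.mul_mem (T.mul_mem ht hs) (T.inv_mem ht)) (T.inv_mem hs)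
  refine ⟨⟨h1.trans hT.1, fun b hb => ?_⟩, h1⟩
  have h2 : StrD T ≤ (StrD T).comap (MulAut.conj b).toMonoidHom := by
    refine (Subgroup.closure_le _).2 ?_
    rintro x ⟨t, ht, s, hs, rfl⟩
    show b * (t * s * t⁻¹ * s⁻¹) * b⁻¹ ∈ StrD T
    refine Subgroup.subset_closure ⟨_, hT.2 b hb t ht, _, hT.2 b hb s hs, ?_⟩
    group
  exact fun c hc => h2 hc

end

/-- `B` is a nonabelian minimal normal subgroup of `H`, and `U` is a normal subgroup of `B`. Then every
subgroup which contains all commutators of `U` contains `U`. -/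
theorem perfect_of_minimal {M : Type*} [Group M] [Finite M] {H B U K : Subgroup M}
    (hBH : B ≤ H) (hBn : ∀ h ∈ H, ∀ b ∈ B, h * b * h⁻¹ ∈ B)
    (hmin : ∀ C : Subgroup M, C ≤ B → (∀ h ∈ H, ∀ c ∈ C, h * c * h⁻¹ ∈ C) → C = ⊥ ∨ C = B)
    (hab : ¬ ∀ a ∈ B, ∀ b ∈ B, a * b = b * a)
    (hUB : U ≤ B) (hUn : ∀ b ∈ B, ∀ u ∈ U, b * u * b⁻¹ ∈ U)
    (hK : ∀ u ∈ U, ∀ v ∈ U, u * v * u⁻¹ * v⁻¹ ∈ K) : U ≤ K := by
  have hB : StrN B B := ⟨le_rfl, fun b hb c hc => hBn b (hBH hb) c hc⟩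
  have hU : StrN B U := ⟨hUB, hUn⟩
  -- (1) the centre of `B` is trivial
  have hZ : ∀ z ∈ B, (∀ b ∈ B, z * b = b * z) → z = 1 := by
    let Z : Subgroup M := B ⊓ Subgroup.centralizer (B : Set M)
    have hZm : ∀ z, z ∈ Z ↔ z ∈ B ∧ ∀ b ∈ B, b * z = z * b := by
      intro z
      show z ∈ B ∧ z ∈ Subgroup.centralizer (B : Set M) ↔ _
      rw [Subgroup.mem_centralizer_iff]
      rfl
    have hZH : ∀ h ∈ H, ∀ c ∈ Z, h * c * h⁻¹ ∈ Z := by
      intro h hh c hc
      rw [hZm] at hc ⊢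
      refine ⟨hBn h hh c hc.1, fun b hb => ?_⟩
      have h1 := hc.2 _ (hBn h⁻¹ (H.inv_mem hh) b hb)
      have h2 : b * (h * c * h⁻¹) = h * (h⁻¹ * b * h⁻¹⁻¹ * c) * h⁻¹ := by group
      rw [h2, h1]
      group
    have h1 : Z = ⊥ := by
      rcases hmin Z inf_le_left hZH with h1 | h1
      · exact h1
      · exfalso
        refine hab fun a ha b hb => ?_
        have h2 : b ∈ Z := by rw [h1]; exact hb
        exact ((hZm b).1 h2).2 a ha
    intro z hz hz2
    have h2 : z ∈ Z := (hZm z).2 ⟨hz, fun b hb => (hz2 b hb).symm⟩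
    rw [h1, Subgroup.mem_bot] at h2
    exact h2
  -- (2) `B` is the supremum of the minimal ones
  have hsup : sSup {T : Subgroup M | StrM B T} = B := by
    have h0 : sSup {T : Subgroup M | StrM B T} ≤ B := sSup_le fun T hT => hT.1.1
    rcases hmin _ h0 (fun h hh => by
      have h1 : sSup {T : Subgroup M | StrM B T} ≤
          (sSup {T : Subgroup M | StrM B T}).comap (MulAut.conj h).toMonoidHom := by
        refine sSup_le fun T hT => ?_
        refine Subgroup.map_le_iff_le_comap.1 ?_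
        exact le_sSup (Str_mapM hBn hh hT)
      exact fun c hc => h1 hc) with h1 | h1
    · exfalso
      have hBne : B ≠ ⊥ := by
        rintro rfl
        refine hab fun a ha b hb => ?_
        rw [Subgroup.mem_bot.1 ha, Subgroup.mem_bot.1 hb]
      obtain ⟨T, hT⟩ := exists_minimal_of_wellFoundedLT
        (fun C : Subgroup M => StrN B C ∧ C ≠ ⊥) ⟨B, hB, hBne⟩
      have hTM : StrM B T := by
        refine ⟨hT.prop.1, hT.prop.2, fun C hC hCT => ?_⟩
        by_cases hC0 : C = ⊥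
        · exact Or.inl hC0
        · exact Or.inr (le_antisymm hCT (hT.le_of_le ⟨hC, hC0⟩ hCT))
      have h2 : T ≤ ⊥ := by
        rw [← h1]
        exact le_sSup hTM
      exact hTM.2.1 (le_bot_iff.1 h2)
    · exact h1
  -- (3) a minimal one and a normal subgroup
  have hdich : ∀ T C : Subgroup M, StrM B T → StrN B C → T ⊓ C = ⊥ ∨ T ≤ C := by
    intro T C hT hC
    rcases hT.2.2 _ (Str_inf hT.1 hC) inf_le_left with h1 | h1
    · exact Or.inl h1
    · exact Or.inr (inf_eq_left.1 h1)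
  -- (4) minimal ones are generated by their commutators
  have hper : ∀ T : Subgroup M, StrM B T → StrD T = T := by
    intro T hT
    rcases hT.2.2 _ (StrD_N hT.1).1 (StrD_N hT.1).2 with h1 | h1
    · exfalso
      have hTc : ∀ t ∈ T, ∀ s ∈ T, t * s = s * t := by
        intro t ht s hs
        have h2 : t * s * t⁻¹ * s⁻¹ ∈ StrD T := Subgroup.subset_closure ⟨t, ht, s, hs, rfl⟩
        rw [h1, Subgroup.mem_bot, mul_inv_eq_one, mul_inv_eq_iff_eq_mul] at h2
        exact h2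
      refine hT.2.1 (le_bot_iff.1 fun t ht => ?_)
      rw [Subgroup.mem_bot]
      refine hZ t (hT.1.1 ht) ?_
      have h2 : sSup {T : Subgroup M | StrM B T} ≤ Subgroup.centralizer ({t} : Set M) := by
        refine sSup_le fun T₂ hT₂ => ?_
        intro s hs
        rw [Subgroup.mem_centralizer_iff]
        rintro x rfl
        rcases hdich T₂ T hT₂ hT.1 with h3 | h3
        · exact (Str_comm hT₂.1 hT.1 h3 hs ht).symm
        · exact hTc _ ht s (h3 hs)
      rw [hsup] at h2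
      intro b hb
      exact (Subgroup.mem_centralizer_iff.1 (h2 hb)) t rfl
    · exact h1
  -- (5) the decomposition
  have hP : sSup {T : Subgroup M | StrM B T ∧ T ≤ U} ≤ U := sSup_le fun T hT => hT.2
  have hPK : sSup {T : Subgroup M | StrM B T ∧ T ≤ U} ≤ K := by
    refine sSup_le fun T hT => ?_
    rw [← hper T hT.1]
    refine (Subgroup.closure_le K).2 ?_
    rintro x ⟨t, ht, s, hs, rfl⟩
    exact hK t (hT.2 ht) s (hT.2 hs)
  have hRB : sSup {T : Subgroup M | StrM B T ∧ T ⊓ U = ⊥} ≤ B := sSup_le fun T hT => hT.1.1.1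
  have hR : ∀ r ∈ sSup {T : Subgroup M | StrM B T ∧ T ⊓ U = ⊥}, ∀ u ∈ U, u * r = r * u := by
    have h1 : sSup {T : Subgroup M | StrM B T ∧ T ⊓ U = ⊥} ≤
        Subgroup.centralizer (U : Set M) := by
      refine sSup_le fun T hT s hs => ?_
      rw [Subgroup.mem_centralizer_iff]
      intro u hu
      exact (Str_comm hT.1.1 hU hT.2 hs hu).symm
    intro r hr u hu
    exact (Subgroup.mem_centralizer_iff.1 (h1 hr)) u hu
  generalize hPdef : sSup {T : Subgroup M | StrM B T ∧ T ≤ U} = P at hP hPK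
  generalize hRdef : sSup {T : Subgroup M | StrM B T ∧ T ⊓ U = ⊥} = R at hRB hR
  let Q : Subgroup M :=
    { carrier := {x | ∃ p ∈ P, ∃ r ∈ R, p * r = x}
      mul_mem' := by
        rintro x y ⟨p, hp, r, hr, rfl⟩ ⟨p', hp', r', hr', rfl⟩
        refine ⟨p * p', P.mul_mem hp hp', r * r', R.mul_mem hr hr', ?_⟩
        have h1 := hR r hr p' (hP hp')
        calc p * p' * (r * r') = p * (p' * r) * r' := by group
          _ = p * (r * p') * r' := by rw [h1]
          _ = p * r * (p' * r') := by group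
      one_mem' := ⟨1, P.one_mem, 1, R.one_mem, by group⟩
      inv_mem' := by
        rintro x ⟨p, hp, r, hr, rfl⟩
        refine ⟨p⁻¹, P.inv_mem hp, r⁻¹, R.inv_mem hr, ?_⟩
        have h1 := hR r⁻¹ (R.inv_mem hr) p⁻¹ (hP (P.inv_mem hp))
        rw [h1]
        group }
  have hBQ : ∀ b ∈ B, ∃ p ∈ P, ∃ r ∈ R, p * r = b := by
    have h1 : B ≤ Q := by
      rw [← hsup]
      refine sSup_le fun T hT => ?_
      intro t ht
      rcases hdich T U hT hU with h3 | h3
      · have h4 : T ≤ R := by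
          rw [← hRdef]
          exact le_sSup ⟨hT, h3⟩
        exact ⟨1, P.one_mem, t, h4 ht, one_mul t⟩
      · have h4 : T ≤ P := by
          rw [← hPdef]
          exact le_sSup ⟨hT, h3⟩
        exact ⟨t, h4 ht, 1, R.one_mem, mul_one t⟩
    exact fun b hb => h1 hb
  intro u hu
  obtain ⟨p, hp, r, hr, hpr⟩ := hBQ u (hUB hu)
  have hrU : r ∈ U := by
    have h1 : r = p⁻¹ * u := by
      rw [← hpr]
      group
    rw [h1]
    exact U.mul_mem (U.inv_mem (hP hp)) hu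
  have hr1 : r = 1 := by
    refine hZ r (hRB hr) fun b hb => ?_
    obtain ⟨p', hp', r', hr', rfl⟩ := hBQ b hb
    have h1 := hR r hr p' (hP hp')
    have h2 := hR r' hr' r hrU
    calc r * (p' * r') = (r * p') * r' := by group
      _ = (p' * r) * r' := by rw [h1]
      _ = p' * (r * r') := by group
      _ = p' * (r' * r) := by rw [h2]
      _ = p' * r' * r := by group
  rw [← hpr, hr1, mul_one]
  exact hPK hp

end Pool.Agent.H86.UN
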