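import Mathlib

set_option autoImplicit false

/-!
The unique minimal normal subgroup.
-/

namespace Pool.Agent.H86.UN

/-- a minimal nontrivial subgroup of `B` which is normalised by `H` -/
private theorem uni_minimal {M : Type*} [Group M] [Finite M] {H B : Subgroup M} (hB : B ≠ ⊥)
    (hBn : ∀ h ∈ H, ∀ b ∈ B, h * b * h⁻¹ ∈ B) :
    ∃ B₁ : Subgroup M, B₁ ≤ B ∧ B₁ ≠ ⊥ ∧ (∀ h ∈ H, ∀ b ∈ B₁, h * b * h⁻¹ ∈ B₁) ∧
      ∀ C : Subgroup M, C ≤ B₁ → (∀ h ∈ H, ∀ c ∈ C, h * c * h⁻¹ ∈ C) → C = ⊥ ∨ C = B₁ := by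
  obtain ⟨B₁, hB₁, hmin⟩ := (Set.toFinite {B₁ : Subgroup M | B₁ ≤ B ∧ B₁ ≠ ⊥ ∧
    ∀ h ∈ H, ∀ b ∈ B₁, h * b * h⁻¹ ∈ B₁}).exists_minimal ⟨B, le_rfl, hB, hBn⟩
  refine ⟨B₁, hB₁.1, hB₁.2.1, hB₁.2.2, fun C hC hCn => ?_⟩
  by_cases h0 : C = ⊥
  · exact Or.inl h0
  · exact Or.inr (le_antisymm hC (hmin ⟨hC.trans hB₁.1, h0, hCn⟩ hC))

/-- If of two commuting normal subgroups of the nontrivial finite group `M` one is always trivial, then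
`M` has a smallest nontrivial normal subgroup, and it is not commutative. -/
theorem exists_smallest {M : Type*} [Group M] [Finite M] [Nontrivial M]
    (hcom : ∀ A B : Subgroup M, A.Normal → B.Normal → (∀ a ∈ A, ∀ b ∈ B, a * b = b * a) →
      A = ⊥ ∨ B = ⊥) :
    ∃ B : Subgroup M, B.Normal ∧ B ≠ ⊥ ∧ (∀ A : Subgroup M, A.Normal → A ≠ ⊥ → B ≤ A) ∧
      ¬ ∀ a ∈ B, ∀ b ∈ B, a * b = b * a := by
  obtain ⟨B, -, hB0, hBn, hmin⟩ := uni_minimal (M := M) (H := ⊤) (B := ⊤) bot_ne_top.symm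
    fun h _ b _ => Subgroup.mem_top _
  have hB : B.Normal := ⟨fun b hb g => hBn g (Subgroup.mem_top g) b hb⟩
  refine ⟨B, hB, hB0, fun A hA hA0 => ?_, fun h => ?_⟩
  · rcases hmin (A ⊓ B) inf_le_right fun g _ c hc =>
      ⟨hA.conj_mem c hc.1 g, hB.conj_mem c hc.2 g⟩ with h | h
    · exfalso
      have hc : ∀ a ∈ A, ∀ b ∈ B, a * b = b * a := by
        intro a ha b hb
        have h1 : a * b * a⁻¹ * b⁻¹ ∈ A ⊓ B := by
          refine ⟨?_, ?_⟩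
          · have h2 := A.mul_mem ha (hA.conj_mem a⁻¹ (A.inv_mem ha) b)
            have h3 : a * (b * a⁻¹ * b⁻¹) = a * b * a⁻¹ * b⁻¹ := by group
            rwa [h3] at h2
          · exact B.mul_mem (hB.conj_mem b hb a) (B.inv_mem hb)
        rw [h, Subgroup.mem_bot, mul_inv_eq_one, mul_inv_eq_iff_eq_mul] at h1
        exact h1
      rcases hcom A B hA hB hc with h1 | h1
      · exact hA0 h1
      · exact hB0 h1
    · rw [← h]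
      exact inf_le_left
  · rcases hcom B B hB hB h with h1 | h1
    · exact hB0 h1
    · exact hB0 h1

/-- a minimal nontrivial subgroup of `B` which is normalised by `H` -/
theorem exists_minimal {M : Type*} [Group M] [Finite M] {H B : Subgroup M} (hB : B ≠ ⊥)
    (hBn : ∀ h ∈ H, ∀ b ∈ B, h * b * h⁻¹ ∈ B) :
    ∃ B₁ : Subgroup M, B₁ ≤ B ∧ B₁ ≠ ⊥ ∧ (∀ h ∈ H, ∀ b ∈ B₁, h * b * h⁻¹ ∈ B₁) ∧
      ∀ C : Subgroup M, C ≤ B₁ → (∀ h ∈ H, ∀ c ∈ C, h * c * h⁻¹ ∈ C) → C = ⊥ ∨ C = B₁ :=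
  uni_minimal hB hBn

end Pool.Agent.H86.UN
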