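import Pool.Agent.H86.UN.Loc
import Pool.Agent.H86.UN.Str
import Pool.Agent.H86.UN.Uni

set_option autoImplicit false

/-!
Two commuting normal subgroups of the inner mapping group: one is trivial.
-/

namespace ALoop

open Equiv Pool.Agent.H86.UN

variable {Q : Type*} {G : Subgroup (Perm Q)} {L : Q → Perm Q} {J : Perm Q} {e : Q}

namespace AL

/-- the setting of (5)-(8): `w = z_x`, `b` of odd order and inverted by `w`, `r = L x⁻¹ b L x` -/
theorem key' (h : AL G L J e) {x : Q} (hJx : J x = x) {b : Perm Q} (hb : b ∈ Inn G e)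
    (hodd : Odd (orderOf b)) (hwb : (D L J x * J) * b * (D L J x * J) = b⁻¹) :
    J * ((L x)⁻¹ * b * L x) * J = ((L x)⁻¹ * b * L x)⁻¹ ∧
    (D L J x * J) * ((L x)⁻¹ * b * L x) * (D L J x * J) = ((L x)⁻¹ * b * L x)⁻¹ ∧
    b * ((L x)⁻¹ * b * L x) = ((L x)⁻¹ * b * L x) * b := by
  have hJJ := h.JJ1
  have hbJ : b * J = J * b := h.comJ b hb.1 hb.2
  have hDJ : D L J x * J = J * D L J x := h.Dx_J hJx
  have hDD := h.D_sq x
  have hzb : D L J x * b * D L J x = b⁻¹ := by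
    rw [← hwb]
    calc D L J x * b * D L J x = D L J x * b * (J * J) * D L J x := by rw [hJJ, mul_one]
      _ = D L J x * (b * J) * (J * D L J x) := by group
      _ = D L J x * (J * b) * (D L J x * J) := by rw [hbJ, hDJ]
      _ = (D L J x * J) * b * (D L J x * J) := by group
  obtain ⟨c1, c2, c3⟩ := h.key_comm hJx hb hodd (pow_orderOf_eq_one b) hzb
  refine ⟨c2, ?_, c3.symm⟩
  set r := (L x)⁻¹ * b * L x with hr
  have c1' : r⁻¹ * D L J x = D L J x * r⁻¹ := by
    calc r⁻¹ * D L J x = r⁻¹ * (D L J x * r) * r⁻¹ := by group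
      _ = r⁻¹ * (r * D L J x) * r⁻¹ := by rw [c1]
      _ = D L J x * r⁻¹ := by group
  calc (D L J x * J) * r * (D L J x * J) = (D L J x * J) * r * (J * D L J x) := by rw [hDJ]
    _ = D L J x * (J * r * J) * D L J x := by group
    _ = D L J x * (r⁻¹ * D L J x) := by rw [c2]; group
    _ = (D L J x * D L J x) * r⁻¹ := by rw [c1']; group
    _ = r⁻¹ := by rw [hDD, one_mul]

theorem odd_mul {M : Type*} [Group M] [Finite M] {b m : M} (hc : Commute b m)
    (hb : Odd (orderOf b)) (hm : Odd (orderOf m)) : Odd (orderOf (b * m)) := by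
  have h1 : orderOf (b * m) ∣ orderOf b * orderOf m := hc.orderOf_mul_dvd_mul_orderOf
  exact Odd.of_dvd_nat (hb.mul hm) h1

/-- (6): the commutator of `i` and `r` -/
theorem com_six [Finite Q] (h : AL G L J e) {x : Q} (hJx : J x = x) (hxe : x ≠ e) {b i : Perm Q}
    (hb : b ∈ Inn G e) (hodd : Odd (orderOf b))
    (hwb : (D L J x * J) * b * (D L J x * J) = b⁻¹)
    (hi : i ∈ Inn G e) (hodd' : Odd (orderOf i))
    (hwi : (D L J x * J) * i * (D L J x * J) = i⁻¹) (hbi : b * i = i * b) :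
    Commute (kom i ((L x)⁻¹ * b * L x)) ((L x)⁻¹ * b * L x) ∧
      Commute (kom i ((L x)⁻¹ * b * L x)) (D L J x * J) := by
  have hzz := h.Z_sq (h.zx_mem hJx hxe)
  set z := D L J x * J with hz
  have hbi' : Commute b i := hbi
  have hzbi : z * (b * i) * z = (b * i)⁻¹ := by
    calc z * (b * i) * z = z * b * (z * z) * i * z := by rw [hzz]; group
      _ = (z * b * z) * (z * i * z) := by group
      _ = b⁻¹ * i⁻¹ := by rw [hwb, hwi]
      _ = (b * i)⁻¹ := by rw [hbi]; group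
  obtain ⟨-, r2, r3⟩ := h.key' hJx hb hodd hwb
  obtain ⟨-, s2, s3⟩ := h.key' hJx hi hodd' hwi
  obtain ⟨-, -, t3⟩ := h.key' hJx ((Inn G e).mul_mem hb hi) (odd_mul hbi' hodd hodd') hzbi
  have e1 : (L x)⁻¹ * (b * i) * L x = ((L x)⁻¹ * b * L x) * ((L x)⁻¹ * i * L x) := by group
  have e2 : ((L x)⁻¹ * b * L x) * ((L x)⁻¹ * i * L x) =
      ((L x)⁻¹ * i * L x) * ((L x)⁻¹ * b * L x) := by
    calc ((L x)⁻¹ * b * L x) * ((L x)⁻¹ * i * L x) = (L x)⁻¹ * (b * i) * L x := by group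
      _ = (L x)⁻¹ * (i * b) * L x := by rw [hbi]
      _ = _ := by group
  rw [e1] at t3
  obtain ⟨-, -, k3, k4, -⟩ := brk hbi e2 r3 s3 t3
  exact ⟨k4, (kom_z hzz hwi r2 k3 k4).symm⟩

/-- (7): the conjugates of `r` under `B` -/
theorem com_seven [Finite Q] (h : AL G L J e) {A B : Subgroup (Perm Q)} (hA : A ≤ Inn G e)
    (hA0 : A ≠ ⊥) (hAn : ∀ g ∈ Inn G e, ∀ a ∈ A, g * a * g⁻¹ ∈ A) (hB : B ≤ Inn G e)
    (hBn : ∀ g ∈ Inn G e, ∀ a ∈ B, g * a * g⁻¹ ∈ B)
    (hcom : ∀ a ∈ A, ∀ b ∈ B, a * b = b * a) {x : Q} (hJx : J x = x) (hxe : x ≠ e)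
    {b : Perm Q} (hb : b ∈ A) (hodd : Odd (orderOf b))
    (hwb : (D L J x * J) * b * (D L J x * J) = b⁻¹) {m : Perm Q} (hm : m ∈ B) :
    (Commute (kom m ((L x)⁻¹ * b * L x)) ((L x)⁻¹ * b * L x) ∧
      Commute (kom m ((L x)⁻¹ * b * L x)) (D L J x * J)) ∧
    ∃ (k : ℕ) (c : Perm Q),
      m = ((D L J x * J) * (m * (D L J x * J) * m⁻¹)) ^ k * c ∧
      Commute c ((L x)⁻¹ * b * L x) := by
  have hwE : D L J x * J ∈ EE L J e := ⟨x, hJx, hxe, rfl⟩
  obtain ⟨huB, huo, hui⟩ := h.odd_prod hA hA0 hAn hB hBn hcom hwE hm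
  have hzz := h.Z_sq (h.zx_mem hJx hxe)
  set z := D L J x * J with hz
  have hzi : z⁻¹ = z := inv_eq_of_mul_eq_one_left hzz
  set u := z * (m * z * m⁻¹) with hu
  obtain ⟨k, hk⟩ := huo
  have hun : u ^ (2 * k + 1) = 1 := by rw [← hk, pow_orderOf_eq_one]
  have hzu : ∀ j : ℕ, z * u ^ j * z = (u ^ j)⁻¹ := by
    intro j
    induction j with
    | zero => simp [hzz]
    | succ j ih =>
      calc z * u ^ (j + 1) * z = (z * u ^ j * z) * (z⁻¹ * z⁻¹ * (z * u * z)) := by
            rw [pow_succ]; group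
        _ = (u ^ j)⁻¹ * u⁻¹ := by rw [ih, hzi, hzz, hui, one_mul]
        _ = (u ^ (j + 1))⁻¹ := by rw [pow_succ']; group
  have hconj : u ^ k * z * (u ^ k)⁻¹ = m * z * m⁻¹ := by
    have h1 : z * (u ^ k)⁻¹ = u ^ k * z := by
      rw [← hzu k]
      calc z * (z * u ^ k * z) = (z * z) * u ^ k * z := by group
        _ = u ^ k * z := by rw [hzz, one_mul]
    have h2 : u ^ k * u ^ k * u = 1 := by
      rw [← pow_add, ← pow_succ]
      have : k + k + 1 = 2 * k + 1 := by ring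
      rw [this, hun]
    have h3 : u * z = z * u⁻¹ := by
      rw [← hui]
      calc u * z = (z * z) * u * z := by rw [hzz, one_mul]
        _ = z * (z * u * z) := by group
    have h4 : z * u = m * z * m⁻¹ := by rw [hu, ← mul_assoc, hzz, one_mul]
    have h5 : u⁻¹ * z = z * u := by
      rw [← hui]
      calc z * u * z * z = z * u * (z * z) := by group
        _ = z * u := by rw [hzz, mul_one]
    calc u ^ k * z * (u ^ k)⁻¹ = u ^ k * (z * (u ^ k)⁻¹) := by group
      _ = u ^ k * u ^ k * z := by rw [h1]; group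
      _ = (u ^ k * u ^ k * u) * u⁻¹ * z := by group
      _ = m * z * m⁻¹ := by rw [h2, one_mul, h5, h4]
  set i := u ^ k with hi
  set c := i⁻¹ * m with hc
  have hiB : i ∈ B := B.pow_mem huB k
  have hcB : c ∈ B := B.mul_mem (B.inv_mem hiB) hm
  have hcI := hB hcB
  have hcz : c * z = z * c := by
    have h1 : c * z * c⁻¹ = z := by
      calc c * z * c⁻¹ = i⁻¹ * (m * z * m⁻¹) * i := by rw [hc]; group
        _ = i⁻¹ * (i * z * i⁻¹) * i := by rw [hconj]
        _ = z := by group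
    calc c * z = (c * z * c⁻¹) * c := by group
      _ = z * c := by rw [h1]
  have hcx : c x = x := (h.EE_cent hcI).1 hcz
  have hcL : c * L x = L x * c := h.comL hcI.1 hcI.2 hcx
  have hcb : c * b = b * c := (hcom b hb c hcB).symm
  set r := (L x)⁻¹ * b * L x with hr
  have hcr : Commute c r := by
    have h1 : c * (L x)⁻¹ = (L x)⁻¹ * c := by
      calc c * (L x)⁻¹ = (L x)⁻¹ * (L x * c) * (L x)⁻¹ := by group
        _ = (L x)⁻¹ * (c * L x) * (L x)⁻¹ := by rw [hcL]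
        _ = (L x)⁻¹ * c := by group
    show c * r = r * c
    calc c * r = (c * (L x)⁻¹) * b * L x := by rw [hr]; group
      _ = (L x)⁻¹ * (c * b) * L x := by rw [h1]; group
      _ = (L x)⁻¹ * b * (c * L x) := by rw [hcb]; group
      _ = r * c := by rw [hcL, hr]; group
  have hmic : m = i * c := by rw [hc]; group
  have hkom : kom m r = kom i r := by
    have h1 : c * r * c⁻¹ = r := by rw [hcr.eq]; group
    unfold kom
    calc m * r * m⁻¹ * r⁻¹ = i * (c * r * c⁻¹) * i⁻¹ * r⁻¹ := by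
          conv_lhs => rw [hmic]
          group
      _ = i * r * i⁻¹ * r⁻¹ := by rw [h1]
  have hio : Odd (orderOf i) := by
    have h1 : orderOf i ∣ orderOf u := orderOf_pow_dvd k
    exact Odd.of_dvd_nat (by rw [hk]; exact ⟨k, rfl⟩) h1
  have h6 := h.com_six hJx hxe (hA hb) hodd hwb (hB hiB) hio (hzu k) (hcom b hb i hiB)
  refine ⟨?_, k, c, hmic, hcr⟩
  rw [hkom]
  exact h6

end AL

end ALoop
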